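import Pool.Agent.helper68.FY.Spec

set_option autoImplicit false

namespace Pool.Agent.helper68.FY

open Finset

theorem QC_zero (ψ : V3) (x0 x1 z0 z1 : ℤ) (hQ : ψ 0 * x0 ^ 2 + ψ 1 * (x0 * x1) + ψ 2 * x1 ^ 2 ≠ 0)
    (hB : 2 * ψ 0 * (x0 * z0) + ψ 1 * (x0 * z1 + x1 * z0) + 2 * ψ 2 * (x1 * z1) = 0)
    (hD : x0 * z1 - x1 * z0 = 0) : z0 = 0 ∧ z1 = 0 := by
  have h2 : (2 : ℤ) * (ψ 0 * x0 ^ 2 + ψ 1 * (x0 * x1) + ψ 2 * x1 ^ 2) ≠ 0 := mul_ne_zero (by norm_num) hQ
  constructor
  · have h : z0 * (2 * (ψ 0 * x0 ^ 2 + ψ 1 * (x0 * x1) + ψ 2 * x1 ^ 2)) = 0 := by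
      linear_combination x0 * hB - (ψ 1 * x0 + 2 * ψ 2 * x1) * hD
    exact (mul_eq_zero.1 h).resolve_right h2
  · have h : z1 * (2 * (ψ 0 * x0 ^ 2 + ψ 1 * (x0 * x1) + ψ 2 * x1 ^ 2)) = 0 := by
      linear_combination x1 * hB + (2 * ψ 0 * x0 + ψ 1 * x1) * hD
    exact (mul_eq_zero.1 h).resolve_right h2

theorem QC_count (F : Finset V4) (G : ℕ) (hG : 1 ≤ G) (x0 x1 : V4 → ℤ)
    (h0 : ∀ g ∈ F, |x0 g| ≤ 2 * G) (h1 : ∀ g ∈ F, |x1 g| ≤ 2 * G)
    (hinj : ∀ g ∈ F, ∀ h ∈ F, x0 g = x0 h → x1 g = x1 h → (0 < dt g ↔ 0 < dt h) → g = h) :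
    F.card ≤ 50 * G ^ 2 := by
  classical
  have hc : F.card ≤ ((Finset.Icc (-(2 * G : ℤ)) (2 * G) ×ˢ Finset.Icc (-(2 * G : ℤ)) (2 * G)) ×ˢ
      (Finset.univ : Finset Bool)).card := by
    refine Finset.card_le_card_of_injOn (fun g => ((x0 g, x1 g), decide (0 < dt g))) ?_ ?_
    · intro g hg
      have e0 := abs_le.1 (h0 g hg)
      have e1 := abs_le.1 (h1 g hg)
      simp only [Finset.coe_product, Finset.coe_univ, Set.mem_prod, Finset.coe_Icc, Set.mem_Icc,
        Set.mem_univ, and_true]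
      exact ⟨e0, e1⟩
    · intro g hg h hh he
      simp only [Prod.mk.injEq, decide_eq_decide] at he
      exact hinj g hg h hh he.1.1 he.1.2 he.2
  rw [Finset.card_product, Finset.card_product, Int.card_Icc, Finset.card_univ, Fintype.card_bool] at hc
  have e : ((2 * G : ℤ) + 1 - -(2 * G : ℤ)).toNat = 4 * G + 1 := by
    have : (2 * G : ℤ) + 1 - -(2 * G : ℤ) = ((4 * G + 1 : ℕ) : ℤ) := by push_cast; ring
    rw [this, Int.toNat_natCast]
  rw [e] at hc
  nlinarith

theorem QC_box {g : V4} {G : ℕ} (hg : g ∈ PB G) : dt g ≠ 0 ∧ ∀ i, |g i| ≤ (G : ℤ) := by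
  classical
  rw [PB, Finset.mem_filter, box, Fintype.mem_piFinset] at hg
  exact ⟨hg.2.1, fun i => abs_le.2 (Finset.mem_Icc.1 (hg.1 i))⟩

theorem QC_dt (ψ φ : V3) (g : V4) (h : par (cp ψ g) φ) :
    φ 0 ^ 2 * (dt g ^ 2 * ds ψ) = (cp ψ g 0) ^ 2 * ds φ ∧
    φ 2 ^ 2 * (dt g ^ 2 * ds ψ) = (cp ψ g 2) ^ 2 * ds φ ∧
    (dt g ^ 2 * ds ψ) = (cp ψ g 1) ^ 2 - 4 * cp ψ g 0 * cp ψ g 2 := by
  have h3 : (dt g ^ 2 * ds ψ) = (cp ψ g 1) ^ 2 - 4 * cp ψ g 0 * cp ψ g 2 := by
    simp only [cp, dt, ds, Matrix.cons_val_zero, Matrix.cons_val_one, Matrix.cons_val]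
    ring
  have h01 := h 0 1
  have h02 := h 0 2
  have h12 := h 1 2
  refine ⟨?_, ?_, h3⟩
  · rw [h3, ds]
    linear_combination (-(cp ψ g 0 * φ 1) - φ 0 * cp ψ g 1) * h01 + (4 * cp ψ g 0 * φ 0) * h02
  · rw [h3, ds]
    linear_combination (φ 2 * cp ψ g 1 + cp ψ g 2 * φ 1) * h12 - (4 * cp ψ g 2 * φ 2) * h02

theorem QC_sq {a b c : ℤ} (hc : c ≠ 0) (ha : a ≠ 0) (hb : b ≠ 0) (h : a ^ 2 * c = b ^ 2 * c)
    (hs : 0 < a ↔ 0 < b) : a = b := by
  have h2 : a ^ 2 = b ^ 2 := mul_right_cancel₀ hc h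
  rcases sq_eq_sq_iff_eq_or_eq_neg.1 h2 with h3 | h3
  · exact h3
  · exfalso
    rcases lt_or_gt_of_ne ha with h4 | h4
    · have h5 : ¬ 0 < a := by omega
      rw [hs] at h5
      omega
    · have h5 := hs.1 h4
      omega

theorem QC : QC_stmt := by
  intro φ ψ G hG hφ hψ F hF
  have hcp0 : ∀ g, cp ψ g 0 = ψ 0 * g 0 ^ 2 + ψ 1 * (g 0 * g 2) + ψ 2 * g 2 ^ 2 := fun g => by
    simp only [cp, Matrix.cons_val_zero]
  have hcp1 : ∀ g, cp ψ g 1 = 2 * ψ 0 * (g 0 * g 1) + ψ 1 * (g 0 * g 3 + g 1 * g 2) + 2 * ψ 2 * (g 2 * g 3) :=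
    fun g => by simp only [cp, Matrix.cons_val_one, Matrix.cons_val_zero]
  have hcp2 : ∀ g, cp ψ g 2 = ψ 0 * g 1 ^ 2 + ψ 1 * (g 1 * g 3) + ψ 2 * g 3 ^ 2 := fun g => by
    simp only [cp, Matrix.cons_val]
  by_cases h0 : φ 0 = 0
  · by_cases h2 : φ 2 = 0
    · -- third case
      have h1 : φ 1 ≠ 0 := by
        intro h1
        apply hφ
        rw [ds, h1, h0]
        ring
      have key : ∀ g ∈ F, cp ψ g 0 = 0 ∧ cp ψ g 2 = 0 := fun g hg => by
        have hp := (hF g hg).2
        have e1 := hp 0 1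
        have e2 := hp 1 2
        rw [h0, mul_zero] at e1
        rw [h2, mul_zero] at e2
        exact ⟨(mul_eq_zero.1 e1).resolve_right h1, (mul_eq_zero.1 e2.symm).resolve_right h1⟩
      refine QC_count F G hG (fun g => g 0 + g 1) (fun g => g 2 + g 3) ?_ ?_ ?_
      · intro g hg
        have hb := (QC_box (hF g hg).1).2
        have := abs_add_le (g 0) (g 1)
        have := hb 0
        have := hb 1
        omega
      · intro g hg
        have hb := (QC_box (hF g hg).1).2
        have := abs_add_le (g 2) (g 3)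
        have := hb 2
        have := hb 3
        omega
      · intro g hg h hh e0 e1 hs
        have dg := (QC_box (hF g hg).1).1
        have dh := (QC_box (hF h hh).1).1
        have kg := key g hg
        have kh := key h hh
        have tg := (QC_dt ψ φ g (hF g hg).2).2.2
        have th := (QC_dt ψ φ h (hF h hh).2).2.2
        rw [kg.1, kg.2] at tg
        rw [kh.1, kh.2] at th
        have qg : ψ 0 * (g 0 + g 1) ^ 2 + ψ 1 * ((g 0 + g 1) * (g 2 + g 3)) + ψ 2 * (g 2 + g 3) ^ 2 = cp ψ g 1 := by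
          have a1 := kg.1
          have a2 := kg.2
          rw [hcp0] at a1
          rw [hcp2] at a2
          rw [hcp1]
          linear_combination a1 + a2
        have qh : ψ 0 * (h 0 + h 1) ^ 2 + ψ 1 * ((h 0 + h 1) * (h 2 + h 3)) + ψ 2 * (h 2 + h 3) ^ 2 = cp ψ h 1 := by
          have a1 := kh.1
          have a2 := kh.2
          rw [hcp0] at a1
          rw [hcp2] at a2
          rw [hcp1]
          linear_combination a1 + a2
        have hBe : cp ψ g 1 = cp ψ h 1 := by rw [← qg, ← qh, e0, e1]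
        have hde : dt g = dt h := by
          refine QC_sq hψ dg dh ?_ hs
          rw [tg, th, hBe]
        have hne : cp ψ g 1 ≠ 0 := by
          intro hz
          rw [hz] at tg
          have : dt g ^ 2 * ds ψ = 0 := by rw [tg]; ring
          exact mul_ne_zero (pow_ne_zero 2 dg) hψ this
        have hz := QC_zero ψ (g 0 + g 1) (g 2 + g 3) (g 1 - h 1) (g 3 - h 3) (by rw [qg]; exact hne) (by
          have a2 := kg.2
          have b2 := kh.2
          have a0 := kg.1
          rw [hcp2] at a2 b2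
          rw [hcp0] at a0
          have c1 := hBe
          rw [hcp1, hcp1] at c1
          have f0 : g 0 = h 0 + h 1 - g 1 := by linarith
          have f2 : g 2 = h 2 + h 3 - g 3 := by linarith
          rw [f0, f2] at c1 ⊢
          linear_combination c1 + 2 * a2 - 2 * b2) (by
          have d1 := hde
          rw [dt, dt] at d1
          have f0 : g 0 = h 0 + h 1 - g 1 := by linarith
          have f2 : g 2 = h 2 + h 3 - g 3 := by linarith
          rw [f0, f2] at d1 ⊢
          linear_combination d1)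
        funext i
        fin_cases i
        · show g 0 = h 0
          linarith [hz.1]
        · show g 1 = h 1
          linarith [hz.1]
        · show g 2 = h 2
          linarith [hz.2]
        · show g 3 = h 3
          linarith [hz.2]
    · -- second case
      refine QC_count F G hG (fun g => g 1) (fun g => g 3) ?_ ?_ ?_
      · intro g hg
        have hb := (QC_box (hF g hg).1).2 1
        omega
      · intro g hg
        have hb := (QC_box (hF g hg).1).2 3
        omega
      · intro g hg h hh e0 e1 hs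
        have dg := (QC_box (hF g hg).1).1
        have dh := (QC_box (hF h hh).1).1
        have tg := (QC_dt ψ φ g (hF g hg).2).2.1
        have th := (QC_dt ψ φ h (hF h hh).2).2.1
        have hQ : cp ψ g 2 = cp ψ h 2 := by rw [hcp2, hcp2, e0, e1]
        have hde : dt g = dt h := by
          refine QC_sq (c := φ 2 ^ 2 * ds ψ) (mul_ne_zero (pow_ne_zero 2 h2) hψ) dg dh ?_ hs
          have : φ 2 ^ 2 * (dt g ^ 2 * ds ψ) = φ 2 ^ 2 * (dt h ^ 2 * ds ψ) := by rw [tg, th, hQ]
          linear_combination this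
        have hne : cp ψ g 2 ≠ 0 := by
          intro hz
          rw [hz] at tg
          have : φ 2 ^ 2 * (dt g ^ 2 * ds ψ) = 0 := by rw [tg]; ring
          exact mul_ne_zero (pow_ne_zero 2 h2) (mul_ne_zero (pow_ne_zero 2 dg) hψ) this
        have hB : cp ψ g 1 = cp ψ h 1 := by
          have a1 := (hF g hg).2 1 2
          have a2 := (hF h hh).2 1 2
          refine mul_right_cancel₀ h2 ?_
          rw [a1, a2, hQ]
        have hz := QC_zero ψ (g 1) (g 3) (g 0 - h 0) (g 2 - h 2) (by rw [← hcp2]; exact hne) (by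
          have c1 := hB
          rw [hcp1, hcp1, ← e0, ← e1] at c1
          linear_combination c1) (by
          have d1 := hde
          rw [dt, dt, ← e0, ← e1] at d1
          linear_combination -d1)
        funext i
        fin_cases i
        · show g 0 = h 0
          linarith [hz.1]
        · exact e0
        · show g 2 = h 2
          linarith [hz.2]
        · exact e1
  · -- first case
    refine QC_count F G hG (fun g => g 0) (fun g => g 2) ?_ ?_ ?_
    · intro g hg
      have hb := (QC_box (hF g hg).1).2 0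
      omega
    · intro g hg
      have hb := (QC_box (hF g hg).1).2 2
      omega
    · intro g hg h hh e0 e1 hs
      have dg := (QC_box (hF g hg).1).1
      have dh := (QC_box (hF h hh).1).1
      have tg := (QC_dt ψ φ g (hF g hg).2).1
      have th := (QC_dt ψ φ h (hF h hh).2).1
      have hQ : cp ψ g 0 = cp ψ h 0 := by rw [hcp0, hcp0, e0, e1]
      have hde : dt g = dt h := by
        refine QC_sq (c := φ 0 ^ 2 * ds ψ) (mul_ne_zero (pow_ne_zero 2 h0) hψ) dg dh ?_ hs
        have : φ 0 ^ 2 * (dt g ^ 2 * ds ψ) = φ 0 ^ 2 * (dt h ^ 2 * ds ψ) := by rw [tg, th, hQ]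
        linear_combination this
      have hne : cp ψ g 0 ≠ 0 := by
        intro hz
        rw [hz] at tg
        have : φ 0 ^ 2 * (dt g ^ 2 * ds ψ) = 0 := by rw [tg]; ring
        exact mul_ne_zero (pow_ne_zero 2 h0) (mul_ne_zero (pow_ne_zero 2 dg) hψ) this
      have hB : cp ψ g 1 = cp ψ h 1 := by
        have a1 := (hF g hg).2 0 1
        have a2 := (hF h hh).2 0 1
        refine mul_right_cancel₀ h0 ?_
        rw [← a1, ← a2, hQ]
      have hz := QC_zero ψ (g 0) (g 2) (g 1 - h 1) (g 3 - h 3) (by rw [← hcp0]; exact hne) (by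
        have c1 := hB
        rw [hcp1, hcp1, ← e0, ← e1] at c1
        linear_combination c1) (by
        have d1 := hde
        rw [dt, dt, ← e0, ← e1] at d1
        linear_combination d1)
      funext i
      fin_cases i
      · exact e0
      · show g 1 = h 1
        linarith [hz.1]
      · exact e1
      · show g 3 = h 3
        linarith [hz.2]

end Pool.Agent.helper68.FY
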